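import Pool.Agent.TH733.RG.Triv
import Pool.Agent.H822R2.ESY.Final

/-!
# Common translates of independent random oracles: `NP`-hard disjoint `NP`-pairs

`xor2 A B` is the symmetric difference of the oracles `A` and `B`, the translate of `A` by `B`.

* For every sequence `B 0, B 1, ...` of oracles there is one oracle `A` such that, relative to every
  translate of `A` by a `B i`, every disjoint `NP`-pair is `NP`-hard.
* Let the `B i` be independent random oracles. Almost surely, for every set `I` of numbers there is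
  one oracle `A` such that for all `i`, relative to the translate of `A` by `B i`: if `i` is in `I`,
  then every disjoint `NP`-pair is `NP`-hard; if `i` is not in `I`, then no disjoint `NP`-pair is
  `NP`-hard, and indeed there is one language `L` in `NP` such that every disjoint `NP`-pair has a
  separator to which `L` does not reduce by polynomial-time Turing reductions, not even by randomized
  ones with bounded error.

So every pattern of answers to Q1 is realised by the translates of one oracle.

Proof. `A` codes the computations relative to its translates by the `B i`, `i ∈ I`, masked by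
`B i`, so that `P = PSPACE` relative to these translates; on the strings of length at most `n` it
depends on `I` only in a very slowly growing initial segment; and for a fixed `I` the translate by an
independent random oracle is random. The theorem on random oracles (`H822R2.ESY.main`) says that the
exceptional oracles have measure zero. Every set of measure zero is a null set for some gauge that
tends to infinity (`RG/Zero.lean`), and a slow enough dependence on `I` allows to treat all `I` at
the same time.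
-/

set_option autoImplicit false

namespace Pool.Agent.Results.MP_80aaf5_lc.IndependentTranslates

open MeasureTheory Pool.Agent.NPC Pool.Agent.H628R3.RO
open Pool.Agent.H822R2.ESY (join IsP IsBPP)
open Pool.Agent.H620R2.Gauge (IsPSPACE)
open Pool.Agent.H622R2 (poly_of_polyTime)
open Pool.Agent.TH733.RT (xor2 randomSeq)
open Pool.Agent.TH733.RG (Collapse patterns collapse_all isNP_poly)

/-- `(K₀, K₁)` is a disjoint `NP`-pair relative to `A`. -/
def NPPair (A : Oracle) (K₀ K₁ : Set (List Bool)) : Prop :=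
  K₀.Nonempty ∧ K₁.Nonempty ∧ IsNP A K₀ ∧ IsNP A K₁ ∧ Disjoint K₀ K₁

/-- `T` is a separator of `(K₀, K₁)`. -/
def IsSep (K₀ K₁ : Set (List Bool)) (T : Oracle) : Prop :=
  (∀ q ∈ K₀, T q = true) ∧ ∀ q ∈ K₁, T q = false

/-- The disjoint `NP`-pair `(K₀, K₁)` is `NP`-hard relative to `A`: all sets in `NP` relative to `A`
are decided in polynomial time relative to `A` and `T`, for every separator `T`. -/
def HardPair (A : Oracle) (K₀ K₁ : Set (List Bool)) : Prop :=
  NPPair A K₀ K₁ ∧ ∀ T : Oracle, IsSep K₀ K₁ T → ∀ L, IsNP A L → IsP (join A T) L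

/-- Relative to `A` one language in `NP` reduces to no disjoint `NP`-pair, not even by randomized
reductions. -/
def NoPair (A : Oracle) : Prop :=
  ∃ L : Set (List Bool), IsNP A L ∧ ∀ K₀ K₁, NPPair A K₀ K₁ →
    ∃ T : Oracle, IsSep K₀ K₁ T ∧ ¬ IsP (join A T) L ∧ ¬ IsBPP (join A T) L

theorem isP_join {D : Oracle} (h : Collapse D) {L : Set (List Bool)} (hL : IsNP D L)
    (T : Oracle) : IsP (join D T) L := by
  obtain ⟨q, hq, hqL⟩ := h L (Pool.Agent.TH687.OneDeg.of_np hL)
  have hq' := poly_of_polyTime hq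
  refine ⟨_, IsFP.tt (Q := fun x => [false :: q x]) (H := fun p => p.2)
    (Poly.cons (Poly.cons (NPC.Poly.const false) hq') (NPC.Poly.const [])) (Poly.snd Poly.id),
    fun x => ?_⟩
  rw [hqL x, Set.mem_ofPred_eq]
  simp [join]

theorem pair_example (A : Oracle) : NPPair A {[]} {[true]} := by
  have e1 : ({[]} : Set (List Bool)) = {x | decide (x = []) = true} := by
    ext x
    simp
  have e2 : ({[true]} : Set (List Bool)) = {x | decide (x = [true]) = true} := by
    ext x
    simp
  refine ⟨⟨_, rfl⟩, ⟨_, rfl⟩, ?_, ?_, by simp⟩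
  · rw [e1]
    exact isNP_poly (Poly.decide_eq Poly.id (NPC.Poly.const _))
  · rw [e2]
    exact isNP_poly (Poly.decide_eq Poly.id (NPC.Poly.const _))

theorem result :
    (∀ B : ℕ → Oracle, ∃ A : Oracle, ∀ i, ∀ K₀ K₁, NPPair (xor2 A (B i)) K₀ K₁ →
      HardPair (xor2 A (B i)) K₀ K₁) ∧
    ∀ᵐ B ∂randomSeq, ∀ I : Set ℕ, ∃ A : Oracle, ∀ i,
      (i ∈ I ↔ ∃ K₀ K₁, HardPair (xor2 A (B i)) K₀ K₁) ∧
      (i ∈ I ↔ ∀ K₀ K₁, NPPair (xor2 A (B i)) K₀ K₁ → HardPair (xor2 A (B i)) K₀ K₁) ∧
      (i ∉ I → NoPair (xor2 A (B i))) := by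
  refine ⟨fun B => ?_, ?_⟩
  · obtain ⟨A, hA⟩ := collapse_all B
    exact ⟨A, fun i K₀ K₁ hK => ⟨hK, fun T _ L hL => isP_join (hA i) hL T⟩⟩
  · have h0 : ∀ᵐ A ∂randomOracle, A ∉ {A : Oracle | ¬ NoPair A} := by
      filter_upwards [Pool.Agent.H822R2.ESY.main] with A hA h
      refine h ?_
      obtain ⟨L, hL, hA⟩ := hA
      refine ⟨L, hL, fun K₀ K₁ hK => ?_⟩
      obtain ⟨T, h1, h2, h3, h4⟩ := hA K₀ K₁ ⟨hK.2.2.1, hK.2.2.2.1,
        fun x hx => Set.disjoint_left.1 hK.2.2.2.2 hx.1 hx.2⟩
      exact ⟨T, ⟨h1, h2⟩, h3, h4⟩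
    filter_upwards [patterns h0] with B hB I
    obtain ⟨A, h1, h2⟩ := hB I
    refine ⟨A, fun i => ?_⟩
    by_cases hi : i ∈ I
    · have h3 : ∀ K₀ K₁, NPPair (xor2 A (B i)) K₀ K₁ → HardPair (xor2 A (B i)) K₀ K₁ :=
        fun K₀ K₁ hK => ⟨hK, fun T _ L hL => isP_join (h1 i hi) hL T⟩
      exact ⟨iff_of_true hi ⟨_, _, h3 _ _ (pair_example _)⟩, iff_of_true hi h3,
        fun h => absurd hi h⟩
    · have h3 : NoPair (xor2 A (B i)) := not_not.1 (h2 i hi)
      have h4 : ∀ K₀ K₁, ¬ HardPair (xor2 A (B i)) K₀ K₁ := by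
        intro K₀ K₁ hK
        obtain ⟨L, hL, h5⟩ := h3
        obtain ⟨T, h6, h7, -⟩ := h5 K₀ K₁ hK.1
        exact h7 (hK.2 T h6 L hL)
      exact ⟨iff_of_false hi fun ⟨K₀, K₁, h⟩ => h4 K₀ K₁ h,
        iff_of_false hi fun h => h4 _ _ (h _ _ (pair_example _)), fun _ => h3⟩

end Pool.Agent.Results.MP_80aaf5_lc.IndependentTranslates
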